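import Pool.Agent.W845.PM.Base

set_option autoImplicit false
open scoped Classical
open Filter Topology MeasureTheory ProbabilityTheory
open scoped ENNReal NNReal BigOperators

namespace Pool.Agent.W673.PM

open Pool.Agent.W845.PM

/-- The Karp-Sipser theorem from the lower and the upper bound. -/
theorem ks : S_LB → S_UB → S_AN2 → S_AN3 → S_KS := by
  intro hLB hUB hA2 hA3 c p hc hs
  obtain ⟨t, ht, hlim⟩ := hA3 c hc
  have hcont : Continuous (val c) := by unfold val; fun_prop
  have hv : Tendsto (fun k : ℕ => val c (jc c (2 * k))) atTop (𝓝 (val c t)) :=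
    (hcont.tendsto t).comp hlim
  have hG := hA2 c t hc ht
  rw [Metric.tendsto_nhds]
  intro ε hε
  obtain ⟨k, hk⟩ := ((Metric.tendsto_nhds.1 hv) (ε / 4) (by positivity)).exists
  rw [Real.dist_eq] at hk
  have hk' := abs_lt.1 hk
  filter_upwards [hLB c k (ε / 4) hc (by positivity) p hs, hUB c (ε / 4) hc (by positivity) p hs]
    with n h1 h2
  rw [Real.dist_eq, abs_lt]
  constructor <;> linarith [hk'.1, hk'.2]

/-- The uniform version of the Karp-Sipser theorem. -/
theorem unif : S_KS → S_UNIF := by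
  intro hKS c η hc hη
  by_contra hcon
  push Not at hcon
  have hch : ∀ i : ℕ, ∃ n : ℕ, ∃ q : ℝ, i ≤ n ∧ 0 ≤ q ∧ q ≤ 1 ∧
      |(n : ℝ) * q - c| ≤ 1 / ((i : ℝ) + 1) ∧ η < |EG n q dfc / n - (Gam c - 1)| := by
    intro i
    obtain ⟨n, q, h1, h2, h3, h4, h5⟩ := hcon (1 / ((i : ℝ) + 1)) i (by positivity)
    exact ⟨n, q, h1, h2, h3, h4, h5⟩
  choose u q hu hq0 hq1 hqc hbad using hch
  have hut : Tendsto u atTop atTop := tendsto_atTop_mono hu tendsto_id
  obtain ⟨φ, hφ, huφ⟩ := Filter.strictMono_subseq_of_tendsto_atTop hut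
  set p : ℕ → ℝ := fun n => if h : ∃ i, u (φ i) = n then q (φ (Classical.choose h))
    else min (c / n) 1 with hp
  have hpu : ∀ i, p (u (φ i)) = q (φ i) := by
    intro i
    have h : ∃ j, u (φ j) = u (φ i) := ⟨i, rfl⟩
    have hj : Classical.choose h = i := huφ.injective (Classical.choose_spec h)
    simp only [hp, dif_pos h, hj]
  have hpn : ∀ n, (¬ ∃ i, u (φ i) = n) → p n = min (c / n) 1 := by
    intro n h
    simp only [hp, dif_neg h]
  have hseq : Seq c p := by
    constructor
    · intro n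
      by_cases h : ∃ i, u (φ i) = n
      · obtain ⟨i, rfl⟩ := h
        rw [hpu]
        exact ⟨hq0 _, hq1 _⟩
      · rw [hpn n h]
        exact ⟨le_min (by positivity) zero_le_one, min_le_right _ _⟩
    · rw [Metric.tendsto_atTop]
      intro ε hε
      obtain ⟨I, hI⟩ := exists_nat_one_div_lt hε
      refine ⟨max (u (φ I)) (⌈c⌉₊ + 1), fun n hn => ?_⟩
      rw [Real.dist_eq]
      by_cases h : ∃ i, u (φ i) = n
      · obtain ⟨i, rfl⟩ := h
        rw [hpu]
        have hIi : I ≤ i := by
          have := le_trans (le_max_left _ _) hn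
          exact huφ.le_iff_le.1 this
        have h1 : (I : ℝ) ≤ (φ i : ℝ) := by
          exact_mod_cast hIi.trans (hφ.id_le i)
        calc |(u (φ i) : ℝ) * q (φ i) - c| ≤ 1 / ((φ i : ℝ) + 1) := hqc _
          _ ≤ 1 / ((I : ℝ) + 1) := by
              apply one_div_le_one_div_of_le (by positivity)
              linarith
          _ < ε := hI
      · rw [hpn n h]
        have hn1 : ⌈c⌉₊ + 1 ≤ n := le_trans (le_max_right _ _) hn
        have hn2 : (⌈c⌉₊ : ℝ) + 1 ≤ n := by exact_mod_cast hn1
        have hcn : c ≤ n := by linarith [Nat.le_ceil c]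
        have hn0 : (0 : ℝ) < n := lt_of_lt_of_le hc hcn
        have : c / n ≤ 1 := by
          rw [div_le_one hn0]
          exact hcn
        rw [min_eq_left this, mul_div_cancel₀ _ hn0.ne', sub_self, abs_zero]
        exact hε
  have hlim := hKS c p hc hseq
  have hev := (Metric.tendsto_nhds.1 hlim) η hη
  have hsub := huφ.tendsto_atTop.eventually hev
  obtain ⟨i, hi⟩ := hsub.exists
  simp only [Function.comp] at hi
  rw [Real.dist_eq, hpu] at hi
  exact absurd hi (not_lt.2 (hbad (φ i)).le)

end Pool.Agent.W673.PM
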